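import Pool.Agent.U397.Leh.Ineq
import Pool.Agent.W85.Leh.Final

set_option autoImplicit false

namespace Pool.Agent.U397.Leh

open Finset

theorem two_pow_dvd {m l p : ℕ} (hp : p.Prime) (hp2 : p ≠ 2) (hl : l ≠ 0) (h : p ∣ m ^ l + 1) :
    2 ^ (padicValNat 2 l + 1) ∣ p - 1 := by
  have : Fact p.Prime := ⟨hp⟩
  have hf2 : Fact (Nat.Prime 2) := ⟨Nat.prime_two⟩
  obtain ⟨l', hl'⟩ := pow_padicValNat_dvd (p := 2) (n := l)
  set v := padicValNat 2 l with hv
  have h0 : ((m : ZMod p)) ^ l = -1 := by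
    have h1 : ((m ^ l + 1 : ℕ) : ZMod p) = 0 := (ZMod.natCast_eq_zero_iff _ _).2 h
    push_cast at h1
    exact eq_neg_of_add_eq_zero_left h1
  have hne : (-1 : ZMod p) ≠ 1 := by
    intro h1
    have h2 : ((2 : ℕ) : ZMod p) = 0 := by
      have : (1 : ZMod p) + 1 = 0 := by
        nth_rewrite 1 [← h1]
        ring
      push_cast
      rw [← this]; norm_num
    rw [ZMod.natCast_eq_zero_iff] at h2
    exact hp2 ((Nat.prime_dvd_prime_iff_eq hp Nat.prime_two).1 h2)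
  have hx : ((m : ZMod p) ^ l') ^ (2 ^ v) = -1 := by
    rw [← pow_mul, mul_comm, ← hl']
    exact h0
  have hord : orderOf ((m : ZMod p) ^ l') = 2 ^ (v + 1) := by
    apply orderOf_eq_prime_pow
    · rw [hx]; exact hne
    · rw [pow_succ, pow_mul, hx]; norm_num
  rw [← hord]
  apply ZMod.orderOf_dvd_card_sub_one
  intro h1
  rw [h1, zero_pow (by positivity)] at hx
  have : (0 : ZMod p) = 1 := by
    have h2 := congrArg (fun x => -x) hx
    simpa using h2
  exact zero_ne_one this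

/-- Numbers `m ^ l + 1`. -/
theorem pow_add_one (m l k : ℕ) (hn : 1 < m ^ l + 1) (hc : ¬ (m ^ l + 1).Prime)
    (h : m ^ l = k * (m ^ l + 1).totient) :
    (2 : ℝ) ^ (padicValNat 2 l + 1) * Real.log k ≤ (m : ℝ) / m.totient := by
  have hl : l ≠ 0 := by
    rintro rfl
    rw [pow_zero] at hc
    exact hc Nat.prime_two
  have hm : m ≠ 0 := by
    rintro rfl
    rw [zero_pow hl] at hn
    omega
  obtain ⟨k', hk2, hk', -, hD, heven⟩ := Pool.Agent.W85.Leh.lehmer (m ^ l + 1) hn hc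
    ⟨k, by rw [Nat.add_sub_cancel, mul_comm]; exact h⟩
  have hmain := main (m ^ l + 1) k hn hc (by rw [Nat.add_sub_cancel]; exact h)
    (2 ^ (padicValNat 2 l + 1)) (by positivity) (t := 1) one_pos le_rfl
  have hE : ∑ p ∈ (m ^ l + 1).primeFactors with ¬ 2 ^ (padicValNat 2 l + 1) ∣ p - 1,
      ((p : ℝ) - 1)⁻¹ = 0 := by
    rw [Finset.filter_false_of_mem, Finset.sum_empty]
    intro p hp
    rw [not_not]
    apply two_pow_dvd (hD p hp).1 _ hl (Nat.dvd_of_mem_primeFactors hp)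
    rintro rfl
    have := (hD 2 hp).2.2.1
    omega
  rw [hE, zero_add, sub_self, neg_zero, Real.rpow_zero, one_mul, Nat.add_sub_cancel,
    Nat.primeFactors_pow m hl] at hmain
  have h5 : ∏ q ∈ m.primeFactors, (1 - (q : ℝ) ^ (-1 : ℝ))⁻¹ = (m : ℝ) / m.totient := by
    rw [Pool.Agent.W85.Leh.ratio' m (Nat.pos_of_ne_zero hm)]
    exact Finset.prod_congr rfl fun q _ => by rw [Real.rpow_neg_one]
  rw [h5, Real.rpow_neg_one] at hmain
  push_cast at hmain
  have h6 : (0 : ℝ) < 2 ^ (padicValNat 2 l + 1) := by positivity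
  calc _ ≤ (2 : ℝ) ^ (padicValNat 2 l + 1) *
        (((2 : ℝ) ^ (padicValNat 2 l + 1))⁻¹ * ((m : ℝ) / m.totient)) :=
        mul_le_mul_of_nonneg_left hmain h6.le
    _ = _ := by rw [← mul_assoc, mul_inv_cancel₀ h6.ne', one_mul]

end Pool.Agent.U397.Leh
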