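import Pool.Agent.U397.Leh.Ineq
import Pool.Agent.Erdos456.Mertens

set_option autoImplicit false

namespace Pool.Agent.U397.Leh

open Finset

theorem one_sub_inv_le {x : ℝ} (hx1 : x < 1) : (1 - x)⁻¹ ≤ Real.exp (x / (1 - x)) := by
  have h := Real.add_one_le_exp (x / (1 - x))
  have h2 : x / (1 - x) + 1 = (1 - x)⁻¹ := by
    have : (1 - x) ≠ 0 := by linarith
    field_simp
    ring
  linarith

/-- the sum over the primes up to `s` -/
theorem small_sum : ∃ C : ℝ, ∀ s : ℕ, 3 ≤ s →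
    ∑ q ∈ (Finset.Icc 1 s).filter Nat.Prime, (q : ℝ) ^ (-(1 - 1 / Real.log s)) ≤
      Real.log (Real.log s) + C := by
  obtain ⟨C1, hC1⟩ := Pool.Agent.Erdos456.Mert.mertens_inv
  obtain ⟨C2, hC2⟩ := Pool.Agent.Erdos456.Mert.mertens_log
  refine ⟨C1 + 2 * (1 + |C2|), fun s hs => ?_⟩
  have hs3 : (3 : ℝ) ≤ s := by exact_mod_cast hs
  have hlog : 1 ≤ Real.log s := by
    rw [Real.le_log_iff_exp_le (by linarith)]
    have := Real.exp_one_lt_d9
    linarith
  have hlog0 : 0 < Real.log s := by linarith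
  have h1 := (abs_le.1 (hC1 s hs)).2
  have h2 := (abs_le.1 (hC2 s (by omega))).2
  have h2' : ∑ p ∈ (Finset.Icc 1 s).filter Nat.Prime, Real.log p / p ≤ Real.log s + |C2| := by
    have := le_abs_self C2
    linarith
  have key : ∀ q ∈ (Finset.Icc 1 s).filter Nat.Prime, (q : ℝ) ^ (-(1 - 1 / Real.log s)) ≤
      1 / (q : ℝ) + 2 / Real.log s * (Real.log q / q) := by
    intro q hq
    rw [Finset.mem_filter, Finset.mem_Icc] at hq
    have hq2 : (2 : ℝ) ≤ q := by exact_mod_cast hq.2.two_le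
    have hq0 : (0 : ℝ) < q := by linarith
    have hqs : (q : ℝ) ≤ s := by exact_mod_cast hq.1.2
    have e1 : (q : ℝ) ^ (-(1 - 1 / Real.log s)) = 1 / q * Real.exp (Real.log q / Real.log s) := by
      rw [show -(1 - 1 / Real.log s) = -1 + 1 / Real.log s by ring, Real.rpow_add hq0,
        Real.rpow_neg_one, Real.rpow_def_of_pos hq0, one_div]
      congr 2
      ring
    have hlq : 0 ≤ Real.log q := Real.log_nonneg (by linarith)
    have hlq' : Real.log q ≤ Real.log s := Real.log_le_log hq0 hqs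
    have hx0 : 0 ≤ Real.log q / Real.log s := by positivity
    have hx1 : Real.log q / Real.log s ≤ 1 := by
      rw [div_le_one hlog0]; exact hlq'
    have e2 : Real.exp (Real.log q / Real.log s) ≤ 1 + 2 * (Real.log q / Real.log s) := by
      have := (abs_le.1 (Real.abs_exp_sub_one_sub_id_le (x := Real.log q / Real.log s)
        (by rw [abs_of_nonneg hx0]; exact hx1))).2
      nlinarith
    rw [e1]
    calc 1 / (q : ℝ) * Real.exp (Real.log q / Real.log s)
        ≤ 1 / (q : ℝ) * (1 + 2 * (Real.log q / Real.log s)) :=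
          mul_le_mul_of_nonneg_left e2 (by positivity)
      _ = _ := by
          field_simp
  have h3 := Finset.sum_le_sum key
  rw [Finset.sum_add_distrib, ← Finset.mul_sum] at h3
  have h4 : 2 / Real.log s * ∑ p ∈ (Finset.Icc 1 s).filter Nat.Prime, Real.log p / p ≤
      2 * (1 + |C2|) := by
    calc _ ≤ 2 / Real.log s * (Real.log s + |C2|) :=
          mul_le_mul_of_nonneg_left h2' (by positivity)
      _ = 2 * (1 + |C2| / Real.log s) := by field_simp
      _ ≤ _ := by
          have : |C2| / Real.log s ≤ |C2| := div_le_self (abs_nonneg _) hlog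
          linarith
  linarith

/-- The Euler product over a set of `s` primes. -/
theorem euler_prod : ∃ C : ℝ, 0 < C ∧ ∀ S : Finset ℕ, (∀ q ∈ S, q.Prime) → 4 ≤ S.card →
    ∏ q ∈ S, (1 - (q : ℝ) ^ (-(1 - 1 / Real.log S.card)))⁻¹ ≤ C * Real.log S.card := by
  obtain ⟨C3, hC3⟩ := small_sum
  have hsum : Summable (fun n : ℕ => (n : ℝ) ^ (-(3 / 2) : ℝ)) :=
    Real.summable_nat_rpow.2 (by norm_num)
  set Z := ∑' n : ℕ, (n : ℝ) ^ (-(3 / 2) : ℝ) with hZ
  have hZ0 : 0 ≤ Z := tsum_nonneg fun n => by positivity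
  refine ⟨Real.exp (C3 + 3 + 3 * Z) + 8 ^ 55, by positivity, fun S hS hcard => ?_⟩
  set s := S.card with hs
  have hs4 : (4 : ℝ) ≤ s := by exact_mod_cast hcard
  have hlog2 := Real.log_two_gt_d9
  have hlog4 : Real.log 4 = 2 * Real.log 2 := by
    rw [show (4 : ℝ) = 2 ^ 2 by norm_num, Real.log_pow]; norm_num
  have hlogs : Real.log 4 ≤ Real.log s := Real.log_le_log (by norm_num) hs4
  have hlog : 1.38 ≤ Real.log s := by linarith
  have hlog0 : 0 < Real.log s := by linarith
  have hinv : 1 / Real.log s ≤ 1 / 1.38 := one_div_le_one_div_of_le (by norm_num) hlog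
  have ht0 : 1 / 4 < 1 - 1 / Real.log s := by
    have : (1 : ℝ) / 1.38 < 3 / 4 := by norm_num
    linarith
  set t := 1 - 1 / Real.log s with ht
  have hfac0 : ∀ q ∈ S, 0 < (1 - (q : ℝ) ^ (-t))⁻¹ := fun q hq => by
    have := rpow_lt_one (t := t) (by linarith) (hS q hq)
    exact inv_pos.2 (by linarith)
  rcases Nat.lt_or_ge s 55 with hsmall | hbig
  · -- small sets
    have hf : ∀ q ∈ S, (1 - (q : ℝ) ^ (-t))⁻¹ ≤ 8 := by
      intro q hq
      have hq2 : (2 : ℝ) ≤ q := by exact_mod_cast (hS q hq).two_le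
      have h1 : (q : ℝ) ^ (-t) ≤ (2 : ℝ) ^ (-(1 / 4) : ℝ) := by
        calc (q : ℝ) ^ (-t) ≤ (2 : ℝ) ^ (-t) :=
              Real.rpow_le_rpow_of_nonpos (by norm_num) hq2 (by linarith)
          _ ≤ _ := Real.rpow_le_rpow_of_exponent_le (by norm_num) (by linarith)
      have h2 : (2 : ℝ) ^ (-(1 / 4) : ℝ) ≤ 7 / 8 := by
        rw [Real.rpow_neg (by norm_num), inv_le_comm₀ (by positivity) (by norm_num)]
        have : ((7 / 8 : ℝ)⁻¹) ^ (4 : ℕ) ≤ 2 := by norm_num
        calc ((7 / 8 : ℝ)⁻¹) = (((7 / 8 : ℝ)⁻¹) ^ (4 : ℕ)) ^ (1 / 4 : ℝ) := by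
              rw [← Real.rpow_natCast, ← Real.rpow_mul (by norm_num)]; norm_num
          _ ≤ _ := Real.rpow_le_rpow (by positivity) this (by norm_num)
      have h3 : 1 / 8 ≤ 1 - (q : ℝ) ^ (-t) := by linarith
      calc (1 - (q : ℝ) ^ (-t))⁻¹ ≤ (1 / 8)⁻¹ := inv_anti₀ (by norm_num) h3
        _ = 8 := by norm_num
    calc ∏ q ∈ S, (1 - (q : ℝ) ^ (-t))⁻¹ ≤ ∏ q ∈ S, 8 :=
          Finset.prod_le_prod (fun q hq => (hfac0 q hq).le) hf
      _ = 8 ^ s := by rw [Finset.prod_const]
      _ ≤ 8 ^ 55 := pow_le_pow_right₀ (by norm_num) hsmall.le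
      _ ≤ (Real.exp (C3 + 3 + 3 * Z) + 8 ^ 55) * Real.log s := by
          have h1 := Real.exp_pos (C3 + 3 + 3 * Z)
          have h2 : (1 : ℝ) ≤ Real.log s := by linarith
          nlinarith
  · -- large sets
    have hs55 : (55 : ℝ) ≤ s := by exact_mod_cast hbig
    have hlog55 : 4 ≤ Real.log s := by
      rw [Real.le_log_iff_exp_le (by linarith)]
      have h1 := Real.exp_one_lt_d9
      calc Real.exp 4 = (Real.exp 1) ^ 4 := by rw [← Real.exp_nat_mul]; norm_num
        _ ≤ 2.7182818286 ^ 4 := by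
            apply pow_le_pow_left₀ (Real.exp_pos 1).le h1.le
        _ ≤ 55 := by norm_num
        _ ≤ s := hs55
    have hinv4 : 1 / Real.log s ≤ 1 / 4 := one_div_le_one_div_of_le (by norm_num) hlog55
    have ht34 : 3 / 4 ≤ t := by rw [ht]; linarith
    have hx : ∀ q ∈ S, (1 - (q : ℝ) ^ (-t))⁻¹ ≤
        Real.exp ((q : ℝ) ^ (-t) + 3 * (q : ℝ) ^ (-(3 / 2) : ℝ)) := by
      intro q hq
      have hq2 : (2 : ℝ) ≤ q := by exact_mod_cast (hS q hq).two_le
      have hq0 : (0 : ℝ) < q := by linarith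
      have h1 := one_sub_inv_le (rpow_lt_one (t := t) (by linarith) (hS q hq))
      refine h1.trans (Real.exp_le_exp.2 ?_)
      have h2 : (q : ℝ) ^ (-t) ≤ 2 / 3 := by
        calc (q : ℝ) ^ (-t) ≤ (2 : ℝ) ^ (-t) :=
              Real.rpow_le_rpow_of_nonpos (by norm_num) hq2 (by linarith)
          _ ≤ (2 : ℝ) ^ (-(3 / 4) : ℝ) :=
              Real.rpow_le_rpow_of_exponent_le (by norm_num) (by linarith)
          _ ≤ 2 / 3 := by
            rw [Real.rpow_neg (by norm_num), inv_le_comm₀ (by positivity) (by norm_num)]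
            have : ((2 / 3 : ℝ)⁻¹) ^ (4 : ℕ) ≤ 2 ^ 3 := by norm_num
            calc ((2 / 3 : ℝ)⁻¹) = (((2 / 3 : ℝ)⁻¹) ^ (4 : ℕ)) ^ (1 / 4 : ℝ) := by
                  rw [← Real.rpow_natCast, ← Real.rpow_mul (by norm_num)]; norm_num
              _ ≤ ((2 : ℝ) ^ 3) ^ (1 / 4 : ℝ) :=
                  Real.rpow_le_rpow (by positivity) this (by norm_num)
              _ = _ := by
                  rw [← Real.rpow_natCast, ← Real.rpow_mul (by norm_num)]; norm_num
      have h0 : 0 < (q : ℝ) ^ (-t) := by positivity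
      have h3 : (q : ℝ) ^ (-t) / (1 - (q : ℝ) ^ (-t)) ≤ (q : ℝ) ^ (-t) + 3 * ((q : ℝ) ^ (-t)) ^ 2 := by
        rw [div_le_iff₀ (by linarith)]
        have : 0 ≤ ((q : ℝ) ^ (-t)) ^ 2 * (2 - 3 * (q : ℝ) ^ (-t)) := by
          apply mul_nonneg (by positivity); linarith
        nlinarith
      have h4 : ((q : ℝ) ^ (-t)) ^ 2 ≤ (q : ℝ) ^ (-(3 / 2) : ℝ) := by
        rw [← Real.rpow_natCast, ← Real.rpow_mul hq0.le]
        apply Real.rpow_le_rpow_of_exponent_le (by linarith)
        push_cast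
        linarith
      linarith
    have hsum1 : ∑ q ∈ S, (q : ℝ) ^ (-(3 / 2) : ℝ) ≤ Z :=
      hsum.sum_le_tsum S (fun n _ => by positivity)
    have hsum2 : ∑ q ∈ S, (q : ℝ) ^ (-t) ≤ Real.log (Real.log s) + C3 + 3 := by
      have e0 : (s : ℝ) * (s : ℝ) ^ (-t) = Real.exp 1 := by
        have hs0 : (0 : ℝ) < s := by linarith
        calc (s : ℝ) * (s : ℝ) ^ (-t) = (s : ℝ) ^ (1 : ℝ) * (s : ℝ) ^ (-t) := by rw [Real.rpow_one]
          _ = (s : ℝ) ^ (1 / Real.log s) := by
              rw [← Real.rpow_add hs0, ht]; congr 1; ring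
          _ = Real.exp 1 := by
              rw [Real.rpow_def_of_pos hs0]
              congr 1
              field_simp
      have e1 : ∑ q ∈ S.filter (fun q => ¬ q ≤ s), (q : ℝ) ^ (-t) ≤ 3 := by
        calc ∑ q ∈ S.filter (fun q => ¬ q ≤ s), (q : ℝ) ^ (-t)
            ≤ ∑ q ∈ S.filter (fun q => ¬ q ≤ s), (s : ℝ) ^ (-t) := by
              apply Finset.sum_le_sum
              intro q hq
              rw [Finset.mem_filter, not_le] at hq
              have : (s : ℝ) ≤ q := by exact_mod_cast hq.2.le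
              exact Real.rpow_le_rpow_of_nonpos (by linarith) this (by linarith)
          _ = ((S.filter (fun q => ¬ q ≤ s)).card : ℝ) * (s : ℝ) ^ (-t) := by
              rw [Finset.sum_const, nsmul_eq_mul]
          _ ≤ s * (s : ℝ) ^ (-t) := by
              apply mul_le_mul_of_nonneg_right _ (by positivity)
              exact_mod_cast Finset.card_filter_le S _
          _ ≤ 3 := by
              rw [e0]
              have := Real.exp_one_lt_d9
              linarith
      have e2 : ∑ q ∈ S.filter (fun q => q ≤ s), (q : ℝ) ^ (-t) ≤ Real.log (Real.log s) + C3 := by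
        refine le_trans ?_ (hC3 s (by omega))
        apply Finset.sum_le_sum_of_subset_of_nonneg
        · intro q hq
          rw [Finset.mem_filter] at hq
          rw [Finset.mem_filter, Finset.mem_Icc]
          exact ⟨⟨(hS q hq.1).one_le, hq.2⟩, hS q hq.1⟩
        · intro q _ _; positivity
      have := Finset.sum_filter_add_sum_filter_not S (fun q => q ≤ s) (fun q => (q : ℝ) ^ (-t))
      linarith
    calc ∏ q ∈ S, (1 - (q : ℝ) ^ (-t))⁻¹
        ≤ ∏ q ∈ S, Real.exp ((q : ℝ) ^ (-t) + 3 * (q : ℝ) ^ (-(3 / 2) : ℝ)) :=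
          Finset.prod_le_prod (fun q hq => (hfac0 q hq).le) hx
      _ = Real.exp (∑ q ∈ S, (q : ℝ) ^ (-t) + 3 * ∑ q ∈ S, (q : ℝ) ^ (-(3 / 2) : ℝ)) := by
          rw [← Real.exp_sum, Finset.sum_add_distrib, Finset.mul_sum]
      _ ≤ Real.exp (Real.log (Real.log s) + (C3 + 3 + 3 * Z)) := by
          apply Real.exp_le_exp.2; linarith
      _ = Real.exp (C3 + 3 + 3 * Z) * Real.log s := by
          rw [Real.exp_add, Real.exp_log hlog0, mul_comm]
      _ ≤ _ := by
          apply mul_le_mul_of_nonneg_right _ hlog0.le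
          have : (0 : ℝ) ≤ 8 ^ 55 := by positivity
          linarith

end Pool.Agent.U397.Leh
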