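import Pool.Agent.U397.Leh.Asym
import Pool.Agent.W85.Leh.Final

set_option autoImplicit false

namespace Pool.Agent.U397.Leh

open Finset Polynomial

/-- First consequence: the primes which are `1` modulo `d`. -/
theorem gcd_bound : ∃ C : ℝ, 0 < C ∧ ∀ n k d : ℕ, 1 < n → ¬ n.Prime → n - 1 = k * n.totient →
    1 ≤ d → (d : ℝ) * (Real.log k - ∑ p ∈ n.primeFactors with ¬ d ∣ p - 1, ((p : ℝ) - 1)⁻¹) ≤
      C * Real.log (n - 1).primeFactors.card := by
  obtain ⟨C, hC0, hC⟩ := euler_prod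
  refine ⟨C, hC0, fun n k d hn hc h hd => ?_⟩
  have hm := main n k hn hc h d hd (t := 1) one_pos le_rfl
  have h4 := Pool.Agent.W85.Leh.four n hn hc ⟨k, by rw [h, mul_comm]⟩
  have hS : ∀ q ∈ (n - 1).primeFactors, q.Prime := fun q hq => Nat.prime_of_mem_primeFactors hq
  have h5 := hC (n - 1).primeFactors hS h4
  set s := (n - 1).primeFactors.card with hs
  have hs4 : (4 : ℝ) ≤ s := by exact_mod_cast h4
  have hlog2 := Real.log_two_gt_d9
  have hlog4 : Real.log 4 = 2 * Real.log 2 := by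
    rw [show (4 : ℝ) = 2 ^ 2 by norm_num, Real.log_pow]; norm_num
  have hlogs : Real.log 4 ≤ Real.log s := Real.log_le_log (by norm_num) hs4
  have hlog : 1.38 ≤ Real.log s := by linarith
  have hinv : 1 / Real.log s ≤ 1 / 1.38 := one_div_le_one_div_of_le (by norm_num) hlog
  have hinv0 : 0 ≤ 1 / Real.log s := by positivity
  have ht0 : 1 / 4 < 1 - 1 / Real.log s := by
    have : (1 : ℝ) / 1.38 < 3 / 4 := by norm_num
    linarith
  have h6 : ∏ q ∈ (n - 1).primeFactors, (1 - (q : ℝ) ^ (-1 : ℝ))⁻¹ ≤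
      ∏ q ∈ (n - 1).primeFactors, (1 - (q : ℝ) ^ (-(1 - 1 / Real.log s)))⁻¹ := by
    apply Finset.prod_le_prod
    · intro q hq
      have := rpow_lt_one (t := 1) one_pos (hS q hq)
      exact (inv_pos.2 (by linarith)).le
    · intro q hq
      have hq1 : (1 : ℝ) ≤ q := by exact_mod_cast (hS q hq).one_le
      have h1 := rpow_lt_one (t := 1 - 1 / Real.log s) (by linarith) (hS q hq)
      apply inv_anti₀ (by linarith)
      have : (q : ℝ) ^ (-1 : ℝ) ≤ (q : ℝ) ^ (-(1 - 1 / Real.log s)) :=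
        Real.rpow_le_rpow_of_exponent_le hq1 (by linarith)
      linarith
  have hd0 : (0 : ℝ) < d := by exact_mod_cast hd
  rw [sub_self, neg_zero, Real.rpow_zero, one_mul, Real.rpow_neg_one] at hm
  have h7 : Real.log k - ∑ p ∈ n.primeFactors with ¬ d ∣ p - 1, ((p : ℝ) - 1)⁻¹ ≤
      (d : ℝ)⁻¹ * (C * Real.log s) := by
    have : (d : ℝ)⁻¹ * ∏ q ∈ (n - 1).primeFactors, (1 - (q : ℝ) ^ (-1 : ℝ))⁻¹ ≤
        (d : ℝ)⁻¹ * (C * Real.log s) :=
      mul_le_mul_of_nonneg_left (h6.trans h5) (by positivity)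
    linarith
  calc _ ≤ (d : ℝ) * ((d : ℝ)⁻¹ * (C * Real.log s)) := mul_le_mul_of_nonneg_left h7 hd0.le
    _ = _ := by field_simp

/-- Second consequence: the least prime factor. -/
theorem min_bound : ∃ C : ℝ, ∀ n : ℕ, 1 < n → ¬ n.Prime → n.totient ∣ n - 1 →
    Real.log n.minFac ≤ Real.log (n - 1).primeFactors.card *
      (Real.log (Real.log (n - 1).primeFactors.card) + C) := by
  obtain ⟨C, hC0, hC⟩ := euler_prod
  refine ⟨Real.log (C / Real.log 2) + 1, fun n hn hc ⟨k, hk⟩ => ?_⟩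
  have h : n - 1 = k * n.totient := by rw [hk, mul_comm]
  have hm := fun {t : ℝ} => main n k hn hc h 1 Nat.one_pos (t := t)
  have h4 := Pool.Agent.W85.Leh.four n hn hc ⟨k, by rw [h, mul_comm]⟩
  obtain ⟨k', hk2, hk', -, hD, heven⟩ := Pool.Agent.W85.Leh.lehmer n hn hc ⟨k, by rw [h, mul_comm]⟩
  have hphi : 0 < n.totient := Nat.totient_pos.2 (by omega)
  have hkk : k = k' := Nat.eq_of_mul_eq_mul_right hphi (by rw [← h, ← hk'])
  subst hkk
  have hS : ∀ q ∈ (n - 1).primeFactors, q.Prime := fun q hq => Nat.prime_of_mem_primeFactors hq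
  have h5 := hC (n - 1).primeFactors hS h4
  set s := (n - 1).primeFactors.card with hs
  have hs4 : (4 : ℝ) ≤ s := by exact_mod_cast h4
  have hlog2 := Real.log_two_gt_d9
  have hlog4 : Real.log 4 = 2 * Real.log 2 := by
    rw [show (4 : ℝ) = 2 ^ 2 by norm_num, Real.log_pow]; norm_num
  have hlogs : Real.log 4 ≤ Real.log s := Real.log_le_log (by norm_num) hs4
  have hlog : 1.38 ≤ Real.log s := by linarith
  have hlog0 : 0 < Real.log s := by linarith
  have hinv : 1 / Real.log s ≤ 1 / 1.38 := one_div_le_one_div_of_le (by norm_num) hlog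
  have hinv0 : 0 ≤ 1 / Real.log s := by positivity
  have ht0 : 1 / 4 < 1 - 1 / Real.log s := by
    have : (1 : ℝ) / 1.38 < 3 / 4 := by norm_num
    linarith
  have h6 := hm (t := 1 - 1 / Real.log s) (by linarith) (by linarith)
  have hE : ∑ p ∈ n.primeFactors with ¬ 1 ∣ p - 1, ((p : ℝ) - 1)⁻¹ = 0 := by
    rw [Finset.filter_false_of_mem (fun p _ => by simp), Finset.sum_empty]
  rw [hE, zero_add, Nat.cast_one, Real.one_rpow, one_mul, sub_sub_cancel] at h6
  have hk1 : Real.log 2 ≤ Real.log k := Real.log_le_log (by norm_num) (by exact_mod_cast hk2)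
  have hPp := Nat.minFac_prime (by omega : n ≠ 1)
  have hP3 : 3 ≤ n.minFac := by
    have h2 := hPp.two_le
    have : n.minFac ≠ 2 := by
      intro h2
      have hd := (hD n.minFac (Nat.mem_primeFactors.2 ⟨hPp, Nat.minFac_dvd n, by omega⟩)).2.2.1
      rw [h2] at hd
      omega
    omega
  have hP3' : (3 : ℝ) ≤ n.minFac := by exact_mod_cast hP3
  have hP0 : (0 : ℝ) < (n.minFac : ℝ) - 1 := by linarith
  have h7 : Real.log 2 ≤ ((n.minFac : ℝ) - 1) ^ (-(1 / Real.log s)) * (C * Real.log s) :=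
    hk1.trans (h6.trans (mul_le_mul_of_nonneg_left h5 (by positivity)))
  have hpw : 0 < ((n.minFac : ℝ) - 1) ^ (1 / Real.log s) := by positivity
  have h8 : ((n.minFac : ℝ) - 1) ^ (1 / Real.log s) ≤ C / Real.log 2 * Real.log s := by
    rw [Real.rpow_neg hP0.le] at h7
    have hl2 : 0 < Real.log 2 := by linarith
    have h9 := mul_le_mul_of_nonneg_left h7 hpw.le
    rw [← mul_assoc, mul_inv_cancel₀ hpw.ne', one_mul] at h9
    calc ((n.minFac : ℝ) - 1) ^ (1 / Real.log s)
        = ((n.minFac : ℝ) - 1) ^ (1 / Real.log s) * Real.log 2 / Real.log 2 := by field_simp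
      _ ≤ C * Real.log s / Real.log 2 := by gcongr
      _ = _ := by ring
  have h10 := Real.log_le_log hpw h8
  rw [Real.log_rpow hP0, Real.log_mul (by positivity) hlog0.ne', one_div,
    inv_mul_le_iff₀ hlog0] at h10
  have h11 : Real.log n.minFac ≤ Real.log ((n.minFac : ℝ) - 1) + 1 := by
    have e1 : (n.minFac : ℝ) ≤ ((n.minFac : ℝ) - 1) * 2 := by linarith
    have e2 := Real.log_le_log (by linarith) e1
    rw [Real.log_mul hP0.ne' (by norm_num)] at e2
    have := Real.log_two_lt_d9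
    linarith
  nlinarith

/-- Prime divisors of cyclotomic values. -/
theorem cyc_prime {d g p : ℕ} (hd : 0 < d) (hp : p.Prime)
    (h : p ∣ ((cyclotomic d ℤ).eval (g : ℤ)).natAbs) :
    d ∣ p - 1 ∨ (p ∣ d ∧ ∀ r : ℕ, r.Prime → r ∣ d → r ≤ p) := by
  have : Fact p.Prime := ⟨hp⟩
  obtain ⟨e, m, hm, hde⟩ := Nat.exists_eq_pow_mul_and_not_dvd hd.ne' p hp.ne_one
  have hm0 : m ≠ 0 := by rintro rfl; simp at hm
  have : NeZero ((m : ZMod p)) := ⟨by
    rw [Ne, ZMod.natCast_eq_zero_iff]; exact hm⟩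
  have hroot : (cyclotomic (p ^ e * m) (ZMod p)).IsRoot (g : ZMod p) := by
    rw [← hde, IsRoot.def, ← map_cyclotomic d (Int.castRingHom (ZMod p))]
    have h1 := eval_intCast_map (Int.castRingHom (ZMod p)) (cyclotomic d ℤ) (g : ℤ)
    rw [Int.cast_natCast] at h1
    rw [h1]
    change ((eval (g : ℤ) (cyclotomic d ℤ) : ℤ) : ZMod p) = 0
    rw [ZMod.intCast_zmod_eq_zero_iff_dvd]
    exact Int.natCast_dvd.2 h
  rw [isRoot_cyclotomic_prime_pow_mul_iff_of_charP] at hroot
  have hord := hroot.eq_orderOf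
  have hg0 : (g : ZMod p) ≠ 0 := by
    intro h0
    have := hroot.pow_eq_one
    rw [h0, zero_pow hm0] at this
    exact zero_ne_one this
  have hmd : m ∣ p - 1 := by
    rw [hord]
    exact ZMod.orderOf_dvd_card_sub_one hg0
  rcases Nat.eq_zero_or_pos e with he | he
  · left
    rw [hde, he, pow_zero, one_mul]
    exact hmd
  · right
    refine ⟨by rw [hde]; exact (dvd_pow_self p he.ne').mul_right m, fun r hr hrd => ?_⟩
    rw [hde, hr.dvd_mul] at hrd
    rcases hrd with h1 | h1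
    · exact ((Nat.prime_dvd_prime_iff_eq hr hp).1 (hr.dvd_of_dvd_pow h1)).le
    · have := Nat.le_of_dvd (Nat.sub_pos_of_lt hp.one_lt) (h1.trans hmd)
      omega

/-- Number of prime divisors. -/
theorem two_pow_card_le {m : ℕ} (hm : m ≠ 0) : 2 ^ m.primeFactors.card ≤ m := by
  calc 2 ^ m.primeFactors.card ≤ ∏ p ∈ m.primeFactors, p :=
        Finset.pow_card_le_prod _ _ _ fun p hp => (Nat.prime_of_mem_primeFactors hp).two_le
    _ ≤ m := Nat.le_of_dvd (Nat.pos_of_ne_zero hm) (Nat.prod_primeFactors_dvd m)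

/-- Third consequence: numbers for which all prime factors but one are `1` modulo `d`. -/
theorem exc_bound : ∃ C : ℝ, 0 < C ∧ ∀ n d : ℕ, 1 < n → ¬ n.Prime → n.totient ∣ n - 1 →
    1 ≤ d → (n.primeFactors.filter (fun p => ¬ d ∣ p - 1)).card ≤ 1 →
    (d : ℝ) ≤ C * Real.log (n - 1).primeFactors.card := by
  obtain ⟨C, hC0, hC⟩ := gcd_bound
  refine ⟨C * 6, by positivity, fun n d hn hc ⟨k, hk⟩ hd hcard => ?_⟩
  have h : n - 1 = k * n.totient := by rw [hk, mul_comm]
  obtain ⟨k', hk2, hk', -, hD, heven⟩ := Pool.Agent.W85.Leh.lehmer n hn hc ⟨k, by rw [h, mul_comm]⟩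
  have hphi : 0 < n.totient := Nat.totient_pos.2 (by omega)
  have hkk : k = k' := Nat.eq_of_mul_eq_mul_right hphi (by rw [← h, ← hk'])
  subst hkk
  have h1 := hC n k d hn hc h hd
  have hk1 : Real.log 2 ≤ Real.log k := Real.log_le_log (by norm_num) (by exact_mod_cast hk2)
  have hlog2 := Real.log_two_gt_d9
  have hsum : ∑ p ∈ n.primeFactors with ¬ d ∣ p - 1, ((p : ℝ) - 1)⁻¹ ≤ 1 / 2 := by
    calc ∑ p ∈ n.primeFactors with ¬ d ∣ p - 1, ((p : ℝ) - 1)⁻¹
        ≤ ∑ p ∈ n.primeFactors with ¬ d ∣ p - 1, (1 / 2 : ℝ) := by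
          apply Finset.sum_le_sum
          intro p hp
          obtain ⟨hpp, h0, h2, -⟩ := hD p (Finset.mem_filter.1 hp).1
          have hp3 : 3 ≤ p := by
            have := Nat.le_of_dvd (by omega) h2
            omega
          have hp3' : (3 : ℝ) ≤ p := by exact_mod_cast hp3
          rw [one_div]
          exact inv_anti₀ (by norm_num) (by linarith)
      _ = ((n.primeFactors.filter (fun p => ¬ d ∣ p - 1)).card : ℝ) * (1 / 2) := by
          rw [Finset.sum_const, nsmul_eq_mul]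
      _ ≤ 1 * (1 / 2) := by
          apply mul_le_mul_of_nonneg_right _ (by norm_num)
          exact_mod_cast hcard
      _ = 1 / 2 := by norm_num
  have hd0 : (0 : ℝ) < d := by exact_mod_cast hd
  have h2 : (1 : ℝ) / 6 ≤ Real.log k - ∑ p ∈ n.primeFactors with ¬ d ∣ p - 1, ((p : ℝ) - 1)⁻¹ := by
    linarith
  nlinarith [mul_le_mul_of_nonneg_left h2 hd0.le]

/-- Cyclotomic values. -/
theorem cyc_bound : ∃ C : ℝ, 0 < C ∧ ∀ d g : ℕ, 2 ≤ g →
    1 < ((cyclotomic d ℤ).eval (g : ℤ)).natAbs →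
    ¬ (((cyclotomic d ℤ).eval (g : ℤ)).natAbs).Prime →
    (((cyclotomic d ℤ).eval (g : ℤ)).natAbs).totient ∣ ((cyclotomic d ℤ).eval (g : ℤ)).natAbs - 1 →
    (d : ℝ) ≤ C * Real.log (Real.log g + 2) := by
  obtain ⟨C, hC0, hC⟩ := exc_bound
  refine ⟨2 * C * (1 + 2 * (2 + |Real.log (2 * C)|)), by positivity,
    fun d g hg hn hc hdvd => ?_⟩
  set n := ((cyclotomic d ℤ).eval (g : ℤ)).natAbs with hndef
  have hg2 : (2 : ℝ) ≤ g := by exact_mod_cast hg
  have hd : 0 < d := by
    rcases Nat.eq_zero_or_pos d with h0 | h0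
    · exfalso
      rw [h0, cyclotomic_zero, eval_one] at hndef
      simp at hndef
      omega
    · exact h0
  have hcard : (n.primeFactors.filter (fun p => ¬ d ∣ p - 1)).card ≤ 1 := by
    rw [Finset.card_le_one]
    intro p hp r hr
    rw [Finset.mem_filter, Nat.mem_primeFactors] at hp hr
    have h1 := (cyc_prime hd hp.1.1 hp.1.2.1).resolve_left hp.2
    have h2 := (cyc_prime hd hr.1.1 hr.1.2.1).resolve_left hr.2
    exact le_antisymm (h2.2 p hp.1.1 h1.1) (h1.2 r hr.1.1 h2.1)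
  have h1 := hC n d hn hc hdvd hd hcard
  have h4 := Pool.Agent.W85.Leh.four n hn hc hdvd
  set s := (n - 1).primeFactors.card with hs
  have hs4 : (4 : ℝ) ≤ s := by exact_mod_cast h4
  have hs0 : (0 : ℝ) < s := by linarith
  -- the size of `n`
  have hcast : (n : ℝ) ≤ ((g : ℝ) + 1) ^ d.totient := by
    have e1 := eval_intCast_map (Int.castRingHom ℝ) (cyclotomic d ℤ) (g : ℤ)
    rw [map_cyclotomic, Int.cast_natCast] at e1
    have e2 : 0 < eval (g : ℝ) (cyclotomic d ℝ) := cyclotomic_pos' d (by linarith)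
    have e3 : (n : ℝ) = |((eval (g : ℤ) (cyclotomic d ℤ) : ℤ) : ℝ)| := by
      rw [hndef, Nat.cast_natAbs, Int.cast_abs]
    rw [e3]
    change eval (g : ℝ) (cyclotomic d ℝ) = ((eval (g : ℤ) (cyclotomic d ℤ) : ℤ) : ℝ) at e1
    rw [← e1, abs_of_pos e2]
    exact cyclotomic_eval_le_add_one_pow_totient (by linarith) d
  have hlg : 0 < Real.log g := Real.log_pos (by linarith)
  have hd0 : (0 : ℝ) < d := by exact_mod_cast hd
  have hsle : (s : ℝ) * Real.log 2 ≤ 2 * d * Real.log g := by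
    have e1 : ((2 : ℝ)) ^ s ≤ (g : ℝ) ^ (2 * d) := by
      calc ((2 : ℝ)) ^ s ≤ ((n - 1 : ℕ) : ℝ) := by
            exact_mod_cast two_pow_card_le (m := n - 1) (by omega)
        _ ≤ n := by exact_mod_cast Nat.sub_le n 1
        _ ≤ ((g : ℝ) + 1) ^ d.totient := hcast
        _ ≤ ((g : ℝ) + 1) ^ d := pow_le_pow_right₀ (by linarith) (Nat.totient_le d)
        _ ≤ ((g : ℝ) ^ 2) ^ d := pow_le_pow_left₀ (by linarith) (by nlinarith) d
        _ = _ := by rw [← pow_mul]
    have e2 := Real.log_le_log (by positivity) e1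
    rw [Real.log_pow, Real.log_pow] at e2
    push_cast at e2
    exact e2
  have hlog2 := Real.log_two_gt_d9
  have hs3 : (s : ℝ) ≤ 3 * d * Real.log g := by nlinarith [mul_pos hd0 hlg]
  set L := Real.log (Real.log g + 2) with hL
  have hL1 : 1 ≤ 2 * L := by
    have : Real.log 2 ≤ L := Real.log_le_log (by norm_num) (by linarith)
    linarith
  have hlogs : Real.log s ≤ 2 + Real.log d + L := by
    have e1 := Real.log_le_log hs0 hs3
    rw [Real.log_mul (by positivity) hlg.ne', Real.log_mul (by norm_num) hd0.ne'] at e1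
    have e2 : Real.log (Real.log g) ≤ L := Real.log_le_log hlg (by linarith)
    have e3 : Real.log 3 ≤ 2 := by
      have := Real.log_le_sub_one_of_pos (x := 3) (by norm_num)
      linarith
    linarith
  have hlogd : Real.log d ≤ d / (2 * C) + |Real.log (2 * C)| := by
    have e1 := Real.log_le_sub_one_of_pos (x := d / (2 * C)) (by positivity)
    rw [Real.log_div hd0.ne' (by positivity)] at e1
    have := le_abs_self (Real.log (2 * C))
    linarith
  have h5 : (d : ℝ) ≤ C * (2 + (d / (2 * C) + |Real.log (2 * C)|) + L) :=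
    h1.trans (mul_le_mul_of_nonneg_left (by linarith) hC0.le)
  have h6 : C * (2 + (d / (2 * C) + |Real.log (2 * C)|) + L) =
      d / 2 + C * (2 + |Real.log (2 * C)| + L) := by
    field_simp
    ring
  rw [h6] at h5
  have h7 : 0 ≤ C * (2 + |Real.log (2 * C)|) := by positivity
  nlinarith [mul_nonneg h7 (sub_nonneg.2 hL1)]

end Pool.Agent.U397.Leh
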