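import Pool.Agent.W85.Leh.Core

set_option autoImplicit false

namespace Pool.Agent.U397.Leh

open Finset

/-- The power `m ^ (-t)` as a monoid homomorphism. -/
noncomputable def powm (t : ℝ) : ℕ →* ℝ where
  toFun m := (m : ℝ) ^ (-t)
  map_one' := by simp
  map_mul' a b := by push_cast; rw [Real.mul_rpow (by positivity) (by positivity)]

theorem rpow_lt_one {t : ℝ} (ht : 0 < t) {p : ℕ} (hp : p.Prime) : (p : ℝ) ^ (-t) < 1 := by
  have h1 : (1 : ℝ) < p := by exact_mod_cast hp.one_lt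
  exact Real.rpow_lt_one_of_one_lt_of_neg h1 (by linarith)

/-- Sum of powers of numbers with all prime factors in `S`. -/
theorem sum_rpow_le {t : ℝ} (ht : 0 < t) (S F : Finset ℕ) (hS : ∀ q ∈ S, q.Prime)
    (hF : ∀ m ∈ F, m ≠ 0 ∧ m.primeFactors ⊆ S) :
    ∑ m ∈ F, ((m : ℝ)) ^ (-t) ≤ ∏ q ∈ S, (1 - (q : ℝ) ^ (-t))⁻¹ := by
  have h := (EulerProduct.summable_and_hasSum_factoredNumbers_prod_filter_prime_geometric
    (f := powm t) (fun {p} hp => by
      change ‖((p : ℝ)) ^ (-t)‖ < 1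
      rw [Real.norm_of_nonneg (by positivity)]
      exact rpow_lt_one ht hp) S).2
  have hfil : (S.filter (fun p => p.Prime)) = S := Finset.filter_true_of_mem hS
  rw [hfil] at h
  have h2 := sum_le_hasSum (F.subtype (fun m => m ∈ Nat.factoredNumbers S))
    (fun i _ => by change (0:ℝ) ≤ ((i : ℕ) : ℝ) ^ (-t); positivity) h
  have h3 : ∑ i ∈ F.subtype (fun m => m ∈ Nat.factoredNumbers S), powm t (i : ℕ)
      = ∑ m ∈ F, ((m : ℝ)) ^ (-t) := by
    rw [Finset.sum_subtype_eq_sum_filter (f := fun m : ℕ => powm t m)]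
    rw [Finset.filter_true_of_mem]
    · rfl
    · intro m hm
      rw [Nat.mem_factoredNumbers_iff_primeFactors_subset]
      exact hF m hm
  rw [h3] at h2
  exact h2

/-- Rankin's bound for the sum of `1 / (p - 1)` over the primes `p` for which `d` divides `p - 1`
and `p - 1` has all its prime factors in `S`. -/
theorem sum_pred_le {t : ℝ} (ht : 0 < t) (ht1 : t ≤ 1) (S D : Finset ℕ) (hS : ∀ q ∈ S, q.Prime)
    (d : ℕ) (hd : 0 < d) (M : ℝ) (hM : 0 < M)
    (hD : ∀ p ∈ D, p - 1 ≠ 0 ∧ d ∣ p - 1 ∧ (p - 1).primeFactors ⊆ S ∧ M ≤ (p : ℝ) - 1) :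
    ∑ p ∈ D, ((p : ℝ) - 1)⁻¹ ≤
      M ^ (-(1 - t)) * ((d : ℝ) ^ (-t) * ∏ q ∈ S, (1 - (q : ℝ) ^ (-t))⁻¹) := by
  have hd' : (0 : ℝ) < d := by exact_mod_cast hd
  have h := sum_rpow_le ht S (D.image (fun p => (p - 1) / d)) hS (by
    intro m hm
    rw [Finset.mem_image] at hm
    obtain ⟨p, hp, rfl⟩ := hm
    obtain ⟨h0, ⟨b, hb⟩, h3, -⟩ := hD p hp
    have hb' : d * b / d = b := Nat.mul_div_cancel_left b hd
    rw [hb, hb']
    rw [hb] at h0 h3
    exact ⟨by rintro rfl; simp at h0, (Nat.primeFactors_mono (Dvd.intro_left d rfl) h0).trans h3⟩)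
  rw [Finset.sum_image] at h
  · have h5 : ∀ p ∈ D, ((p : ℝ) - 1)⁻¹ ≤
        M ^ (-(1 - t)) * ((d : ℝ) ^ (-t) * (((p - 1) / d : ℕ) : ℝ) ^ (-t)) := by
      intro p hp
      obtain ⟨h0, ⟨b, hb⟩, h3, h4⟩ := hD p hp
      have hb' : d * b / d = b := Nat.mul_div_cancel_left b hd
      have hp1 : (p : ℝ) - 1 = d * b := by
        have : p = d * b + 1 := by omega
        rw [this]; push_cast; ring
      rw [hb, hb', ← Real.mul_rpow (by positivity) (by positivity), ← hp1]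
      have hpos : 0 < (p : ℝ) - 1 := lt_of_lt_of_le hM h4
      have e1 : ((p : ℝ) - 1)⁻¹ = ((p : ℝ) - 1) ^ (-(1 - t)) * ((p : ℝ) - 1) ^ (-t) := by
        rw [← Real.rpow_add hpos, ← Real.rpow_neg_one]
        congr 1
        ring
      rw [e1]
      apply mul_le_mul_of_nonneg_right _ (by positivity)
      exact Real.rpow_le_rpow_of_nonpos hM h4 (by linarith)
    calc _ ≤ ∑ p ∈ D, M ^ (-(1 - t)) * ((d : ℝ) ^ (-t) * (((p - 1) / d : ℕ) : ℝ) ^ (-t)) :=
          Finset.sum_le_sum h5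
      _ = M ^ (-(1 - t)) * ((d : ℝ) ^ (-t) * ∑ p ∈ D, (((p - 1) / d : ℕ) : ℝ) ^ (-t)) := by
          rw [← Finset.mul_sum, ← Finset.mul_sum]
      _ ≤ _ := by
          apply mul_le_mul_of_nonneg_left _ (by positivity)
          exact mul_le_mul_of_nonneg_left h (by positivity)
  · intro x hx y hy hxy
    obtain ⟨h0, ⟨b, hb⟩, -, -⟩ := hD x hx
    obtain ⟨h0', ⟨c, hc⟩, -, -⟩ := hD y hy
    have hxy' : (x - 1) / d = (y - 1) / d := hxy
    rw [hb, hc, Nat.mul_div_cancel_left b hd, Nat.mul_div_cancel_left c hd] at hxy'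
    subst hxy'
    omega

/-- The main inequality. -/
theorem main (n k : ℕ) (hn : 1 < n) (hc : ¬ n.Prime) (h : n - 1 = k * n.totient)
    (d : ℕ) (hd : 0 < d) {t : ℝ} (ht : 0 < t) (ht1 : t ≤ 1) :
    Real.log k ≤ ∑ p ∈ n.primeFactors with ¬ d ∣ p - 1, ((p : ℝ) - 1)⁻¹ +
      ((n.minFac : ℝ) - 1) ^ (-(1 - t)) * ((d : ℝ) ^ (-t) *
        ∏ q ∈ (n - 1).primeFactors, (1 - (q : ℝ) ^ (-t))⁻¹) := by
  obtain ⟨k', hk2, hk, hlt, hD, heven⟩ := Pool.Agent.W85.Leh.lehmer n hn hc ⟨k, by rw [h, mul_comm]⟩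
  have hphi : 0 < n.totient := Nat.totient_pos.2 (by omega)
  have hkk : k = k' := Nat.eq_of_mul_eq_mul_right hphi (by rw [← h, ← hk])
  subst hkk
  have hk0 : (0 : ℝ) < k := by
    have : (2 : ℝ) ≤ k := by exact_mod_cast hk2
    linarith
  have hpos : ∀ p ∈ n.primeFactors, 0 ≤ ((p : ℝ) - 1)⁻¹ := by
    intro p hp
    have : (2 : ℝ) ≤ p := by exact_mod_cast (hD p hp).1.two_le
    have : 0 ≤ (p : ℝ) - 1 := by linarith
    positivity
  have h1 := Pool.Agent.W85.Leh.prod_le_exp n.primeFactors (fun p => ((p : ℝ) - 1)⁻¹) hpos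
  have h4 : Real.log k ≤ ∑ p ∈ n.primeFactors, ((p : ℝ) - 1)⁻¹ := by
    rw [Real.log_le_iff_le_exp hk0]
    exact (lt_of_lt_of_le hlt h1).le
  have hmin2 : (2 : ℝ) ≤ n.minFac := by
    exact_mod_cast (Nat.minFac_prime (by omega : n ≠ 1)).two_le
  have h5 := sum_pred_le ht ht1 (n - 1).primeFactors (n.primeFactors.filter (fun p => d ∣ p - 1))
    (fun q hq => Nat.prime_of_mem_primeFactors hq) d hd ((n.minFac : ℝ) - 1) (by linarith) (by
      intro p hp
      rw [Finset.mem_filter] at hp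
      refine ⟨(hD p hp.1).2.1, hp.2, (hD p hp.1).2.2.2, ?_⟩
      have : n.minFac ≤ p := Nat.minFac_le_of_dvd (hD p hp.1).1.two_le
        (Nat.dvd_of_mem_primeFactors hp.1)
      have : (n.minFac : ℝ) ≤ p := by exact_mod_cast this
      linarith)
  have h6 := Finset.sum_filter_add_sum_filter_not n.primeFactors (fun p => d ∣ p - 1)
    (fun p => ((p : ℝ) - 1)⁻¹)
  linarith

end Pool.Agent.U397.Leh
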